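import Pool.Agent.Q298.MB.Stm

/-!
# Project MB (helper298), job MUL: one multiplier for all bases
-/

set_option autoImplicit false

open Finset Filter Topology

namespace Pool.Agent.Q82.MB

open Pool.Agent.Q298.MB

theorem exists_ratio (k : ℕ) {δ : ℝ} (hδ : 0 < δ) :
    ∃ ε : ℝ, 0 < ε ∧ ε < 1 ∧ ((1 + ε) / (1 - ε)) ^ k < 1 + δ := by
  have hc : ContinuousAt (fun ε : ℝ => ((1 + ε) / (1 - ε)) ^ k) 0 := by
    refine ContinuousAt.pow (ContinuousAt.div (by fun_prop) (by fun_prop) (by norm_num)) k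
  have h0 : (fun ε : ℝ => ((1 + ε) / (1 - ε)) ^ k) 0 < 1 + δ := by
    simp
    exact hδ
  have h1 : ∀ᶠ ε in 𝓝 (0 : ℝ), ((1 + ε) / (1 - ε)) ^ k < 1 + δ := hc.eventually_lt_const h0
  have h2 : ∀ᶠ ε in 𝓝[>] (0 : ℝ), ((1 + ε) / (1 - ε)) ^ k < 1 + δ := h1.filter_mono nhdsWithin_le_nhds
  have h3 : ∀ᶠ ε in 𝓝[>] (0 : ℝ), ε < 1 :=
    (eventually_lt_nhds (by norm_num : (0 : ℝ) < 1)).filter_mono nhdsWithin_le_nhds
  have h4 : ∀ᶠ ε in 𝓝[>] (0 : ℝ), 0 < ε := self_mem_nhdsWithin
  obtain ⟨ε, ⟨h5, h6⟩, h7⟩ := ((h2.and h3).and h4).exists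
  exact ⟨ε, h7, h6, h5⟩

theorem t_MUL : J_MUL := by
  intro hPOW k b hb hcop m L H δ hm hδ
  obtain ⟨ε, hε0, hε1, hεk⟩ := exists_ratio k hδ
  have htot : ∀ j, 0 < Nat.totient (b j ^ L) := fun j => by
    rw [Nat.totient_pos]
    have := hb j
    positivity
  have hΛ : 0 < m * ∏ j, Nat.totient (b j ^ L) := Nat.mul_pos hm (prod_pos fun j _ => htot j)
  obtain ⟨e, Y, hY, he⟩ := hPOW k b hb (m * ∏ j, Nat.totient (b j ^ L)) H ε hΛ hε0
  have hbpos : ∀ j, 0 < b j := fun j => by have := hb j; omega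
  refine ⟨∏ l, b l ^ e l, prod_pos fun l _ => pow_pos (hbpos l) _, fun j => ?_⟩
  refine ⟨e j, (k - 1) * e j, ∏ l ∈ univ.erase j, b l ^ e l, ?_, (he j).2.1, ?_, ?_, ?_, ?_⟩
  · exact (Dvd.intro _ rfl).trans (he j).1
  · exact ((Dvd.intro _ rfl).trans (he j).1 : m ∣ e j).mul_left _
  · exact (mul_prod_erase univ (fun l => b l ^ e l) (mem_univ j)).symm
  · -- Euler
    have h1 : ∀ l ∈ univ.erase j, b l ^ e l ≡ 1 [MOD b j ^ L] := by
      intro l hl
      have hlj : l ≠ j := ne_of_mem_erase hl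
      have hc : Nat.Coprime (b l) (b j ^ L) := (hcop l j hlj).pow_right L
      have hd : Nat.totient (b j ^ L) ∣ e l :=
        ((dvd_prod_of_mem _ (mem_univ j)).trans (Dvd.intro_left _ rfl)).trans (he l).1
      obtain ⟨c, hc'⟩ := hd
      rw [hc', pow_mul]
      have h2 := (Nat.ModEq.pow_totient hc).pow c
      rwa [one_pow] at h2
    have h2 : ∀ s : Finset (Fin k), (∀ l ∈ s, b l ^ e l ≡ 1 [MOD b j ^ L]) →
        ∏ l ∈ s, b l ^ e l ≡ 1 [MOD b j ^ L] := by
      intro s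
      induction s using Finset.induction_on with
      | empty => intro _; simp; exact Nat.ModEq.refl 1
      | insert a s ha ih =>
        intro h
        rw [prod_insert ha]
        have h3 := (h a (mem_insert_self a s)).mul (ih fun l hl => h l (mem_insert_of_mem hl))
        rwa [one_mul] at h3
    exact h2 _ h1
  · -- size
    set r : ℝ := (1 + ε) / (1 - ε) with hr
    have h1ε : 0 < 1 - ε := by linarith
    have hr1 : 1 ≤ r := by
      rw [hr, le_div_iff₀ h1ε]
      linarith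
    have hr0 : 0 < r := by linarith
    set X : ℝ := (b j : ℝ) ^ e j with hX
    have hXpos : 0 < X := by
      have : (0 : ℝ) < b j := by exact_mod_cast hbpos j
      positivity
    have hup : ∀ l, (b l : ℝ) ^ e l ≤ r * X := by
      intro l
      have h1 := (he l).2.2.2
      have h2 := (he j).2.2.1
      calc (b l : ℝ) ^ e l ≤ (1 + ε) * Y := h1
        _ = r * ((1 - ε) * Y) := by rw [hr]; field_simp
        _ ≤ r * X := by gcongr
    have hlo : ∀ l, X / r ≤ (b l : ℝ) ^ e l := by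
      intro l
      have h1 := (he j).2.2.2
      have h2 := (he l).2.2.1
      rw [div_le_iff₀ hr0]
      calc X ≤ (1 + ε) * Y := h1
        _ = ((1 - ε) * Y) * r := by rw [hr]; field_simp
        _ ≤ (b l : ℝ) ^ e l * r := by gcongr
    have hcard : (univ.erase j).card = k - 1 := by
      rw [card_erase_of_mem (mem_univ j), card_univ, Fintype.card_fin]
    have hQ : ((∏ l ∈ univ.erase j, b l ^ e l : ℕ) : ℝ) = ∏ l ∈ univ.erase j, (b l : ℝ) ^ e l := by
      push_cast
      rfl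
    have hQup : ∏ l ∈ univ.erase j, (b l : ℝ) ^ e l ≤ r ^ k * X ^ (k - 1) := by
      calc ∏ l ∈ univ.erase j, (b l : ℝ) ^ e l ≤ ∏ l ∈ univ.erase j, (r * X) :=
            prod_le_prod (fun l _ => by positivity) fun l _ => hup l
        _ = r ^ (k - 1) * X ^ (k - 1) := by rw [prod_const, hcard, mul_pow]
        _ ≤ r ^ k * X ^ (k - 1) := by
            have : r ^ (k - 1) ≤ r ^ k := pow_le_pow_right₀ hr1 (Nat.sub_le k 1)
            gcongr
    have hQlo : X ^ (k - 1) / r ^ k ≤ ∏ l ∈ univ.erase j, (b l : ℝ) ^ e l := by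
      calc X ^ (k - 1) / r ^ k ≤ X ^ (k - 1) / r ^ (k - 1) := by
            have : r ^ (k - 1) ≤ r ^ k := pow_le_pow_right₀ hr1 (Nat.sub_le k 1)
            gcongr
        _ = ∏ l ∈ univ.erase j, (X / r) := by rw [prod_const, hcard, div_pow X r]
        _ ≤ ∏ l ∈ univ.erase j, (b l : ℝ) ^ e l :=
            prod_le_prod (fun l _ => by positivity) fun l _ => hlo l
    have hpow : (b j : ℝ) ^ ((k - 1) * e j) = X ^ (k - 1) := by
      rw [hX, ← pow_mul, mul_comm]
    have hXk : 0 < X ^ (k - 1) := by positivity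
    have hrk : 1 ≤ r ^ k := one_le_pow₀ hr1
    rw [hQ, hpow, abs_lt]
    constructor
    · have h3 : X ^ (k - 1) - X ^ (k - 1) / r ^ k < δ * X ^ (k - 1) := by
        have h4 : X ^ (k - 1) - X ^ (k - 1) / r ^ k = X ^ (k - 1) * (1 - 1 / r ^ k) := by ring
        have h5 : 1 - 1 / r ^ k < δ := by
          have h6 : 1 - 1 / r ^ k ≤ r ^ k - 1 := by
            have h7 : 0 < r ^ k := by positivity
            rw [sub_le_iff_le_add, ← sub_le_iff_le_add']
            rw [le_div_iff₀ h7]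
            nlinarith
          linarith
        rw [h4]
        nlinarith
      linarith
    · nlinarith

end Pool.Agent.Q82.MB
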