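import Pool.Agent.Q298.MB.Stm

/-!
# Project MB (helper298), job POW: simultaneous powers
-/

set_option autoImplicit false

namespace Pool.Agent.Q82.MB

open Pool.Agent.Q298.MB

theorem t_POW : J_POW := by
  intro k b hb Λ H ε hΛ hε
  rcases Nat.eq_zero_or_pos k with rfl | hk
  · exact ⟨fun _ => 0, 1, one_pos, fun j => j.elim0⟩
  set L : Fin k → ℝ := fun j => Real.log (b j) with hLdef
  have hb1 : ∀ j, (1 : ℝ) < (b j : ℝ) := fun j => by
    have := hb j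
    exact_mod_cast (show 1 < b j by omega)
  have hL : ∀ j, 0 < L j := fun j => Real.log_pos (hb1 j)
  set z : Fin k := ⟨0, hk⟩ with hz
  set β : Fin k → ℝ := fun j => L z / L j with hβdef
  have hβ : ∀ j, 0 < β j := fun j => div_pos (hL z) (hL j)
  set η : ℝ := Real.log (1 + ε) with hηdef
  have hη : 0 < η := Real.log_pos (by linarith)
  have hΛ' : (0 : ℝ) < Λ := by exact_mod_cast hΛ
  -- the number of boxes
  obtain ⟨R, hR⟩ := exists_nat_gt ((Λ : ℝ) * (∑ j, L j) / η)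
  have hRj : ∀ j, (Λ : ℝ) * L j < R * η := by
    intro j
    rw [div_lt_iff₀ hη] at hR
    refine lt_of_le_of_lt ?_ hR
    have := Finset.single_le_sum (f := L) (fun i _ => (hL i).le) (Finset.mem_univ j)
    gcongr
  have hR0 : 0 < R := by
    rcases Nat.eq_zero_or_pos R with h | h
    · have := hRj z
      rw [h] at this
      have h2 := mul_pos hΛ' (hL z)
      simp at this
      linarith
    · exact h
  have hR0' : (0 : ℝ) < R := by exact_mod_cast hR0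
  have hnn : ∀ (t : ℕ) j, 0 ≤ (t : ℝ) * β j := fun t j => mul_nonneg (Nat.cast_nonneg t) (hβ j).le
  have hfl : ∀ (t : ℕ) j, 0 ≤ (t : ℝ) * β j - ⌊(t : ℝ) * β j⌋₊ ∧
      (t : ℝ) * β j - ⌊(t : ℝ) * β j⌋₊ < 1 := by
    intro t j
    have h1 := Nat.floor_le (hnn t j)
    have h2 := Nat.lt_floor_add_one ((t : ℝ) * β j)
    constructor <;> linarith
  have hlt : ∀ (t : ℕ) j, ⌊((t : ℝ) * β j - ⌊(t : ℝ) * β j⌋₊) * R⌋₊ < R := by
    intro t j
    obtain ⟨h1, h2⟩ := hfl t j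
    rw [Nat.floor_lt (by positivity)]
    nlinarith
  let F : ℕ → (Fin k → Fin R) := fun t j => ⟨⌊((t : ℝ) * β j - ⌊(t : ℝ) * β j⌋₊) * R⌋₊, hlt t j⟩
  obtain ⟨v, hv⟩ := Finite.exists_infinite_fiber F
  have hinf : (F ⁻¹' {v}).Infinite := Set.infinite_coe_iff.1 hv
  obtain ⟨t, ht⟩ := hinf.nonempty
  obtain ⟨D, hD⟩ := exists_nat_gt (∑ j, (((H : ℝ) + 1) / β j))
  obtain ⟨t', ht', htt'⟩ := hinf.exists_gt (t + D)
  have hbox : ∀ j, |((t' : ℝ) * β j - ⌊(t' : ℝ) * β j⌋₊) - ((t : ℝ) * β j - ⌊(t : ℝ) * β j⌋₊)| * R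
      < 1 := by
    intro j
    have e1 : F t j = F t' j := by
      have h1 : F t = v := ht
      have h2 : F t' = v := ht'
      rw [h1, h2]
    have e2 : ⌊((t : ℝ) * β j - ⌊(t : ℝ) * β j⌋₊) * R⌋₊ =
        ⌊((t' : ℝ) * β j - ⌊(t' : ℝ) * β j⌋₊) * R⌋₊ := congrArg Fin.val e1
    have h1 := Nat.floor_le (mul_nonneg (hfl t j).1 hR0'.le)
    have h2 := Nat.lt_floor_add_one (((t : ℝ) * β j - ⌊(t : ℝ) * β j⌋₊) * R)
    have h3 := Nat.floor_le (mul_nonneg (hfl t' j).1 hR0'.le)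
    have h4 := Nat.lt_floor_add_one (((t' : ℝ) * β j - ⌊(t' : ℝ) * β j⌋₊) * R)
    rw [← e2] at h3 h4
    rw [← abs_of_pos hR0', ← abs_mul, abs_lt]
    constructor <;> nlinarith
  have hle : ∀ j, ⌊(t : ℝ) * β j⌋₊ ≤ ⌊(t' : ℝ) * β j⌋₊ := by
    intro j
    refine Nat.floor_le_floor ?_
    have : (t : ℝ) ≤ t' := by exact_mod_cast (by omega : t ≤ t')
    have := (hβ j).le
    gcongr
  have htR : (t : ℝ) + D < t' := by exact_mod_cast htt'
  refine ⟨fun j => Λ * (⌊(t' : ℝ) * β j⌋₊ - ⌊(t : ℝ) * β j⌋₊), (b z : ℝ) ^ (Λ * (t' - t)), ?_, ?_⟩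
  · have := hb1 z
    positivity
  intro j
  refine ⟨Dvd.intro _ rfl, ?_, ?_⟩
  · -- size
    have h1 : ((H : ℝ) + 1) / β j < D := by
      refine lt_of_le_of_lt ?_ hD
      exact Finset.single_le_sum (f := fun j => ((H : ℝ) + 1) / β j)
        (fun i _ => by have := hβ i; positivity) (Finset.mem_univ j)
    rw [div_lt_iff₀ (hβ j)] at h1
    have h2 := hfl t j
    have h3 := hfl t' j
    have h4 : (H : ℝ) < (⌊(t' : ℝ) * β j⌋₊ : ℝ) - ⌊(t : ℝ) * β j⌋₊ := by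
      have h5 : (D : ℝ) * β j ≤ ((t' : ℝ) - t) * β j := by
        have := (hβ j).le
        gcongr
        linarith
      nlinarith
    have h6 : H ≤ ⌊(t' : ℝ) * β j⌋₊ - ⌊(t : ℝ) * β j⌋₊ := by
      rw [← Nat.cast_sub (hle j)] at h4
      exact_mod_cast h4.le
    exact h6.trans (Nat.le_mul_of_pos_left _ hΛ)
  · -- closeness
    set δ : ℝ := ((t' : ℝ) * β j - ⌊(t' : ℝ) * β j⌋₊) - ((t : ℝ) * β j - ⌊(t : ℝ) * β j⌋₊) with hδ
    have hδR := hbox j
    have hsmall : |(Λ : ℝ) * δ * L j| ≤ η := by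
      rw [abs_mul, abs_mul, abs_of_pos hΛ', abs_of_pos (hL j)]
      have h1 := hRj j
      have h2 : |δ| * R < 1 := hδR
      have h3 : |δ| * ((Λ : ℝ) * L j) ≤ |δ| * (R * η) := by
        have := abs_nonneg δ
        gcongr
      nlinarith
    have hlog : ((Λ * (⌊(t' : ℝ) * β j⌋₊ - ⌊(t : ℝ) * β j⌋₊) : ℕ) : ℝ) * L j =
        ((Λ * (t' - t) : ℕ) : ℝ) * L z - (Λ : ℝ) * δ * L j := by
      have ht2 : t ≤ t' := by omega
      push_cast [Nat.cast_sub (hle j), Nat.cast_sub ht2]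
      have h5 : β j * L j = L z := by
        rw [hβdef]
        have := (hL j).ne'
        field_simp
      rw [hδ]
      linear_combination ((Λ : ℝ) * (t' - t)) * h5
    have hpow : (b j : ℝ) ^ (Λ * (⌊(t' : ℝ) * β j⌋₊ - ⌊(t : ℝ) * β j⌋₊)) =
        (b z : ℝ) ^ (Λ * (t' - t)) * Real.exp (-((Λ : ℝ) * δ * L j)) := by
      have hbj : (0 : ℝ) < b j := by linarith [hb1 j]
      have hbz : (0 : ℝ) < b z := by linarith [hb1 z]
      rw [← Real.exp_log (pow_pos hbj _), ← Real.exp_log (pow_pos hbz (Λ * (t' - t))),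
        ← Real.exp_add, Real.log_pow, Real.log_pow]
      congr 1
    have hY : (0 : ℝ) < (b z : ℝ) ^ (Λ * (t' - t)) := by
      have := hb1 z
      positivity
    obtain ⟨hs1, hs2⟩ := abs_le.1 hsmall
    have hexpη : Real.exp η = 1 + ε := Real.exp_log (by linarith)
    have hup : Real.exp (-((Λ : ℝ) * δ * L j)) ≤ 1 + ε := by
      rw [← hexpη]
      exact Real.exp_le_exp.2 (by linarith)
    have hlo : 1 - ε ≤ Real.exp (-((Λ : ℝ) * δ * L j)) := by
      have h1 : Real.exp (-η) ≤ Real.exp (-((Λ : ℝ) * δ * L j)) := Real.exp_le_exp.2 (by linarith)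
      refine le_trans ?_ h1
      rw [Real.exp_neg, hexpη, inv_eq_one_div, le_div_iff₀ (by linarith)]
      nlinarith
    constructor
    · show (1 - ε) * (b z : ℝ) ^ (Λ * (t' - t)) ≤
        (b j : ℝ) ^ (Λ * (⌊(t' : ℝ) * β j⌋₊ - ⌊(t : ℝ) * β j⌋₊))
      rw [hpow]
      nlinarith
    · show (b j : ℝ) ^ (Λ * (⌊(t' : ℝ) * β j⌋₊ - ⌊(t : ℝ) * β j⌋₊)) ≤
        (1 + ε) * (b z : ℝ) ^ (Λ * (t' - t))
      rw [hpow]
      nlinarith

end Pool.Agent.Q82.MB
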